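import Mathlib
import Pool.Agent.X270.MinAb

set_option autoImplicit false

/-!
# Closed subgroups of (totally) minimal abelian groups times compact groups
-/

namespace Pool.Agent.Results.MP_35204b_gt.MinimalTimesCompact

open Topology Pool.Agent.X270.MinAb

universe u v

/-- A topological group is minimal if it carries no strictly coarser Hausdorff group topology.
(In Mathlib `τ ≤ σ` says that `σ` is coarser than `τ`.) -/
def Minimal (G : Type u) [Group G] [τ : TopologicalSpace G] : Prop :=
  ∀ σ : TopologicalSpace G, τ ≤ σ → @IsTopologicalGroup G σ _ → @T2Space G σ → σ = τ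

/-- A topological group is totally minimal if all its quotients by closed normal subgroups are
minimal. -/
def TotallyMinimal (G : Type u) [Group G] [TopologicalSpace G] : Prop :=
  ∀ (N : Subgroup G) [N.Normal], IsClosed (N : Set G) → Minimal (G ⧸ N)

/-- Every closed subgroup is minimal. -/
def CMinimal (G : Type u) [Group G] [TopologicalSpace G] : Prop :=
  ∀ H : Subgroup G, IsClosed (H : Set G) → Minimal H

/-- Every closed subgroup is totally minimal. -/
def CTotallyMinimal (G : Type u) [Group G] [TopologicalSpace G] : Prop :=
  ∀ H : Subgroup G, IsClosed (H : Set G) → TotallyMinimal H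

section

variable {A : Type u} {K : Type v} [CommGroup A] [TopologicalSpace A] [IsTopologicalGroup A]
  [Group K] [TopologicalSpace K] [IsTopologicalGroup K] [CompactSpace K]
  (H : Subgroup (A × K))

/-- the first projection of a subgroup of the product -/
def pr : H →* A := (MonoidHom.fst A K).comp H.subtype

theorem pr_cont : Continuous (pr H) := continuous_fst.comp continuous_subtype_val

variable {H} (hH : IsClosed (H : Set (A × K)))
include hH

theorem pr_closed : IsClosedMap (pr H) :=
  (isClosedMap_fst_of_compactSpace (X := A) (Y := K)).comp hH.isClosedMap_subtype_val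

theorem range_closed : IsClosed ((pr H).range : Set A) := by
  rw [MonoidHom.coe_range]
  exact (pr_closed hH).isClosed_range

theorem prr_open : IsOpenMap (pr H).rangeRestrict := by
  have hc : Continuous (pr H).rangeRestrict := (pr_cont H).subtype_mk _
  have hcl : IsClosedMap (pr H).rangeRestrict := by
    intro F hF
    have h1 := pr_closed hH F hF
    have : ((pr H).rangeRestrict '' F) = Subtype.val ⁻¹' (pr H '' F) := by
      ext x
      constructor
      · rintro ⟨y, hy, rfl⟩
        exact ⟨y, hy, rfl⟩
      · rintro ⟨y, hy, he⟩
        exact ⟨y, hy, Subtype.ext he⟩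
    rw [this]
    exact h1.preimage continuous_subtype_val
  have hq := hcl.isQuotientMap hc (pr H).rangeRestrict_surjective
  exact (MonoidHom.isOpenQuotientMap_of_isQuotientMap hq).isOpenMap

variable [T2Space A] in
theorem ker_compact : IsCompact ((pr H).ker : Set H) := by
  rw [Topology.IsInducing.subtypeVal.isCompact_iff]
  have h1 : IsCompact (({1} : Set A) ×ˢ (Set.univ : Set K)) :=
    isCompact_singleton.prod isCompact_univ
  refine h1.of_isClosed_subset ?_ ?_
  · have : (Subtype.val '' ((pr H).ker : Set H) : Set (A × K)) =
        (H : Set (A × K)) ∩ Prod.fst ⁻¹' ({1} : Set A) := by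
      ext x
      constructor
      · rintro ⟨y, hy, rfl⟩
        exact ⟨y.2, hy⟩
      · rintro ⟨hx, hx1⟩
        exact ⟨⟨x, hx⟩, hx1, rfl⟩
    have h2 : IsClosed ((H : Set (A × K)) ∩ Prod.fst ⁻¹' ({1} : Set A)) :=
      hH.inter (isClosed_singleton.preimage continuous_fst)
    rw [← this] at h2
    exact h2
  · rintro _ ⟨y, hy, rfl⟩
    exact ⟨hy, trivial⟩

end

/-- Let `A` be an abelian topological group and `K` a compact group (Hausdorff, in any universes).
If `A` is minimal then every closed subgroup of `A × K` is minimal, and if `A` is totally minimal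
then every closed subgroup of `A × K` is totally minimal. -/
theorem result : ∀ (A : Type u) (K : Type v) [CommGroup A] [TopologicalSpace A]
    [IsTopologicalGroup A] [T2Space A] [Group K] [TopologicalSpace K] [IsTopologicalGroup K]
    [CompactSpace K] [T2Space K],
    (Minimal A → CMinimal (A × K)) ∧ (TotallyMinimal A → CTotallyMinimal (A × K)) := by
  intro A K _ _ _ _ _ _ _ _ _
  constructor
  · intro hA H hH
    refine min_of_open_hom (pr H).rangeRestrict ((pr_cont H).subtype_mk _) (prr_open hH)
      (pr H).rangeRestrict_surjective ?_ (min_closed hA (pr H).range (range_closed hH))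
    rw [MonoidHom.ker_rangeRestrict]
    exact ker_compact hH
  · intro hA H hH M _ hM
    have hB : IsClosed ((M.map (pr H) : Subgroup A) : Set A) := by
      rw [Subgroup.coe_map]
      exact pr_closed hH _ hM
    have hmin : IsMin (A ⧸ M.map (pr H)) := hA (M.map (pr H)) hB
    let f2 : H →* A ⧸ M.map (pr H) := (QuotientGroup.mk' (M.map (pr H))).comp (pr H)
    have hf2 : ∀ h, f2 h = QuotientGroup.mk (pr H h) := fun _ => rfl
    have hf2c : Continuous f2 := QuotientGroup.continuous_mk.comp (pr_cont H)
    -- points over the range
    have hsat : ∀ a : A, (QuotientGroup.mk a : A ⧸ M.map (pr H)) ∈ f2.range → a ∈ (pr H).range := by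
      rintro a ⟨h, hh⟩
      rw [hf2, QuotientGroup.eq] at hh
      obtain ⟨m, -, hm⟩ := hh
      refine ⟨h * m, ?_⟩
      rw [map_mul, hm, mul_inv_cancel_left]
    have hD : IsClosed (f2.range : Set (A ⧸ M.map (pr H))) := by
      rw [← (QuotientGroup.isQuotientMap_mk (N := M.map (pr H))).isClosed_preimage]
      have : (QuotientGroup.mk : A → A ⧸ M.map (pr H)) ⁻¹' (f2.range : Set (A ⧸ M.map (pr H))) =
          ((pr H).range : Set A) := by
        ext a
        constructor
        · exact hsat a
        · rintro ⟨h, rfl⟩
          exact ⟨h, rfl⟩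
      rw [this]
      exact range_closed hH
    have hopen : IsOpenMap f2.rangeRestrict := by
      intro O hO
      obtain ⟨O', hO', he⟩ := isOpen_induced_iff.1 (prr_open hH O hO)
      have h1 : IsOpen ((QuotientGroup.mk : A → A ⧸ M.map (pr H)) '' O') :=
        QuotientGroup.isOpenMap_coe O' hO'
      have : f2.rangeRestrict '' O = Subtype.val ⁻¹'
          ((QuotientGroup.mk : A → A ⧸ M.map (pr H)) '' O') := by
        ext x
        constructor
        · rintro ⟨y, hy, rfl⟩
          refine ⟨pr H y, ?_, rfl⟩
          have : (pr H).rangeRestrict y ∈ Subtype.val ⁻¹' O' := by rw [he]; exact ⟨y, hy, rfl⟩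
          exact this
        · rintro ⟨a, ha, hax⟩
          have hax' : (QuotientGroup.mk a : A ⧸ M.map (pr H)) ∈ f2.range := by rw [hax]; exact x.2
          have h2 := hsat a hax'
          have h3 : (⟨a, h2⟩ : (pr H).range) ∈ Subtype.val ⁻¹' O' := ha
          rw [he] at h3
          obtain ⟨y, hy, hye⟩ := h3
          refine ⟨y, hy, Subtype.ext ?_⟩
          have h4 : pr H y = a := congrArg Subtype.val hye
          show f2 y = x
          rw [hf2, h4, hax]
      rw [this]
      exact h1.preimage continuous_subtype_val
    have hMk : M ≤ f2.rangeRestrict.ker := by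
      intro m hm
      rw [MonoidHom.ker_rangeRestrict, MonoidHom.mem_ker, hf2, QuotientGroup.eq_one_iff]
      exact ⟨m, hm, rfl⟩
    let g : H ⧸ M →* f2.range := QuotientGroup.lift M f2.rangeRestrict hMk
    have hg : ∀ h : H, g (QuotientGroup.mk h) = f2.rangeRestrict h := fun h => rfl
    have hqm := QuotientGroup.isQuotientMap_mk (N := M)
    have hgc : Continuous g := by
      rw [hqm.continuous_iff]
      exact hf2c.subtype_mk _
    refine min_of_open_hom g hgc ?_ ?_ ?_ (min_closed hmin f2.range hD)
    · intro U hU
      have h1 := hopen _ (hU.preimage (QuotientGroup.continuous_mk (N := M)))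
      have : g '' U = f2.rangeRestrict '' ((QuotientGroup.mk : H → H ⧸ M) ⁻¹' U) := by
        ext x
        constructor
        · rintro ⟨q, hq, rfl⟩
          obtain ⟨h, rfl⟩ := QuotientGroup.mk_surjective q
          exact ⟨h, hq, rfl⟩
        · rintro ⟨h, hh, rfl⟩
          exact ⟨_, hh, rfl⟩
      rw [this]
      exact h1
    · intro x
      obtain ⟨h, rfl⟩ := f2.rangeRestrict_surjective x
      exact ⟨QuotientGroup.mk h, rfl⟩
    · have : (g.ker : Set (H ⧸ M)) = (QuotientGroup.mk : H → H ⧸ M) '' ((pr H).ker : Set H) := by
        ext q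
        constructor
        · intro hq
          obtain ⟨h, rfl⟩ := QuotientGroup.mk_surjective q
          have h1 : g (QuotientGroup.mk h) = 1 := hq
          rw [hg] at h1
          have h2 : f2 h = 1 := congrArg Subtype.val h1
          rw [hf2, QuotientGroup.eq_one_iff] at h2
          obtain ⟨m, hm, he⟩ := h2
          refine ⟨m⁻¹ * h, ?_, ?_⟩
          · show m⁻¹ * h ∈ (pr H).ker
            rw [MonoidHom.mem_ker, map_mul, map_inv, he, inv_mul_cancel]
          · have h5 : (QuotientGroup.mk (m⁻¹ * h) : H ⧸ M) =
                QuotientGroup.mk m⁻¹ * QuotientGroup.mk h := rfl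
            have h6 : (QuotientGroup.mk m⁻¹ : H ⧸ M) = 1 :=
              (QuotientGroup.eq_one_iff _).2 (M.inv_mem hm)
            rw [h5, h6, one_mul]
        · rintro ⟨n, hn, rfl⟩
          show g (QuotientGroup.mk n) = 1
          rw [hg]
          apply Subtype.ext
          show f2 n = 1
          have h7 : pr H n = 1 := hn
          rw [hf2, h7]
          rfl
      rw [this]
      exact (ker_compact hH).image QuotientGroup.continuous_mk

end Pool.Agent.Results.MP_35204b_gt.MinimalTimesCompact
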